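import Mathlib

set_option autoImplicit false

open Matrix

namespace Pool.Agent.H76.Weyl

/-- A positive definite symmetric bilinear form invariant under a finite group. -/
theorem exists_inner {W κ : Type} [Group W] [Finite W] [Fintype κ]
    (ρ : W →* Module.End ℝ (κ → ℝ)) :
    ∃ B : (κ → ℝ) →ₗ[ℝ] (κ → ℝ) →ₗ[ℝ] ℝ, (∀ v w, B v w = B w v) ∧ (∀ v, v ≠ 0 → 0 < B v v) ∧
      ∀ g v w, B (ρ g v) (ρ g w) = B v w := by
  classical
  have := Fintype.ofFinite W
  let B : (κ → ℝ) →ₗ[ℝ] (κ → ℝ) →ₗ[ℝ] ℝ := LinearMap.mk₂ ℝ
    (fun v w => ∑ g : W, ρ g v ⬝ᵥ ρ g w)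
    (by intro a b c; simp [add_dotProduct, Finset.sum_add_distrib])
    (by intro c a b; simp [smul_dotProduct, Finset.mul_sum])
    (by intro a b c; simp [dotProduct_add, Finset.sum_add_distrib])
    (by intro c a b; simp [dotProduct_smul, Finset.mul_sum])
  have hB : ∀ v w, B v w = ∑ g : W, ρ g v ⬝ᵥ ρ g w := fun v w => rfl
  have hnn : ∀ v : κ → ℝ, 0 ≤ v ⬝ᵥ v := fun v => by
    rw [dotProduct]
    exact Finset.sum_nonneg fun i _ => mul_self_nonneg _
  refine ⟨B, fun v w => ?_, fun v hv => ?_, fun g v w => ?_⟩
  · rw [hB, hB]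
    exact Finset.sum_congr rfl fun g _ => dotProduct_comm _ _
  · rw [hB]
    refine Finset.sum_pos' (fun g _ => hnn _) ⟨1, Finset.mem_univ _, ?_⟩
    rw [map_one, Module.End.one_apply]
    exact lt_of_le_of_ne (hnn v) fun h => hv (dotProduct_self_eq_zero.1 h.symm)
  · rw [hB, hB]
    refine Fintype.sum_equiv (Equiv.mulRight g) _ _ fun h => ?_
    simp [map_mul, Module.End.mul_apply]

section pair

variable {V : Type} [AddCommGroup V] [Module ℝ V] (B : V →ₗ[ℝ] V →ₗ[ℝ] ℝ)

lemma refl_rel {s : Module.End ℝ V} (hinv : ∀ v w, B (s v) (s w) = B v w)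
    {β : V →ₗ[ℝ] ℝ} {α : V} (hs : ∀ v, s v = v - β v • α) (hβ : β α = 2) (v : V) :
    2 * B v α = β v * B α α := by
  have h1 := hinv v α
  rw [hs v, hs α, hβ] at h1
  simp only [map_sub, map_smul, LinearMap.sub_apply, LinearMap.smul_apply, smul_eq_mul] at h1
  linarith

/-- The product of two reflections of finite order with integral Cartan numbers. -/
theorem pair_cases (hsym : ∀ v w, B v w = B w v) (hpos : ∀ v, v ≠ 0 → 0 < B v v)
    {s t : Module.End ℝ V} (hsi : ∀ v w, B (s v) (s w) = B v w)
    (hti : ∀ v w, B (t v) (t w) = B v w)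
    {β γ : V →ₗ[ℝ] ℝ} {α δ : V} (hs : ∀ v, s v = v - β v • α) (hβ : β α = 2)
    (ht : ∀ v, t v = v - γ v • δ) (hγ : γ δ = 2)
    {p r : ℤ} (hp : β δ = p) (hr : γ α = r) (hord : s * t ≠ 1) :
    (p * r = 0 ∧ orderOf (s * t) = 2) ∨ (p * r = 1 ∧ orderOf (s * t) = 3) ∨
    (p * r = 2 ∧ orderOf (s * t) = 4) ∨ (p * r = 3 ∧ orderOf (s * t) = 6) := by
  have hα : α ≠ 0 := by rintro rfl; simp at hβ
  have hδ : δ ≠ 0 := by rintro rfl; simp at hγ
  have hx := hpos α hα
  have hy := hpos δ hδ
  have e1 : 2 * B δ α = p * B α α := by rw [refl_rel B hsi hs hβ, hp]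
  have e2 : 2 * B α δ = r * B δ δ := by rw [refl_rel B hti ht hγ, hr]
  have hz : B δ α = B α δ := hsym _ _
  set x := B α α with hxd
  set y := B δ δ with hyd
  set z := B α δ with hzd
  rw [hz] at e1
  -- Cauchy-Schwarz
  set w : V := x • δ - z • α with hw
  have hBw : B w w = x * (x * y - z ^ 2) := by
    rw [hw]
    simp only [map_sub, map_smul, LinearMap.sub_apply, LinearMap.smul_apply, smul_eq_mul]
    rw [← hxd, ← hyd, ← hzd, hz]
    ring
  have hBw0 : 0 ≤ B w w := by
    by_cases h : w = 0
    · rw [h]; simp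
    · exact (hpos w h).le
  have hCS : z ^ 2 ≤ x * y := by
    rw [hBw] at hBw0
    nlinarith [(mul_nonneg_iff_of_pos_left hx).1 hBw0]
  have hprod : (p * r : ℝ) * (x * y) = 4 * z ^ 2 := by
    have : (p * x) * (r * y) = (2 * z) * (2 * z) := by rw [← e1, ← e2]
    linarith
  have hxy : 0 < x * y := mul_pos hx hy
  have hle : p * r ≤ 4 := by
    have : (p * r : ℝ) ≤ 4 := by
      by_contra hcon
      rw [not_le] at hcon
      nlinarith
    exact_mod_cast this
  have hge : 0 ≤ p * r := by
    have : (0 : ℝ) ≤ p * r := by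
      by_contra hcon
      rw [not_le] at hcon
      nlinarith [sq_nonneg z]
    exact_mod_cast this
  have hne4 : p * r ≠ 4 := by
    intro h4
    have h5 : x * y = z ^ 2 := by
      have : (p * r : ℝ) = 4 := by exact_mod_cast h4
      rw [this] at hprod; linarith
    have h6 : w = 0 := by
      by_contra h
      have := hpos w h
      rw [hBw, h5, sub_self, mul_zero] at this
      exact lt_irrefl _ this
    have h7 : x • δ = z • α := sub_eq_zero.1 h6
    have hz0 : z ≠ 0 := by
      intro h; rw [h] at h5; nlinarith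
    have hst : s = t := by
      apply LinearMap.ext
      intro v
      rw [hs, ht]
      congr 1
      have e3 := refl_rel B hsi hs hβ v
      have e4 := refl_rel B hti ht hγ v
      rw [← hxd] at e3
      rw [← hyd] at e4
      have e5 : x * B v δ = z * B v α := by
        have := congrArg (B v) h7
        simpa using this
      -- `x * (γ v * y) = z * (β v * x)`
      have e6 : x * (γ v * y) = z * (β v * x) := by rw [← e3, ← e4]; linarith
      have e7 : γ v * y = z * β v := by
        have : x * (γ v * y) = x * (z * β v) := by rw [e6]; ring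
        exact mul_left_cancel₀ hx.ne' this
      have e8 : (x * y) • (β v • α) = (x * y) • (γ v • δ) := by
        calc (x * y) • (β v • α) = (z * β v) • (z • α) := by
              rw [h5, smul_smul, smul_smul]; congr 1; ring
          _ = (z * β v) • (x • δ) := by rw [h7]
          _ = (γ v * y) • (x • δ) := by rw [e7]
          _ = (x * y) • (γ v • δ) := by rw [smul_smul, smul_smul]; congr 1; ring
      exact smul_right_injective V hxy.ne' e8
    apply hord
    rw [hst]
    apply LinearMap.ext
    intro v
    rw [Module.End.mul_apply, ht (t v), ht v, map_sub, map_smul, hγ, Module.End.one_apply,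
      smul_eq_mul]
    module
  -- the action on coordinates
  set R := s * t with hR
  have hRv : ∀ v, R v = v + (- β v + p * γ v) • α - (γ v) • δ := by
    intro v
    rw [hR, Module.End.mul_apply, hs, ht, map_sub, map_smul, hp, smul_eq_mul]
    module
  have hβR : ∀ v, β (R v) = - β v + p * γ v := by
    intro v
    rw [hRv, map_sub, map_add, map_smul, map_smul, hβ, hp, smul_eq_mul, smul_eq_mul]
    ring
  have hγR : ∀ v, γ (R v) = - r * β v + (p * r - 1) * γ v := by
    intro v
    rw [hRv, map_sub, map_add, map_smul, map_smul, hγ, hr, smul_eq_mul, smul_eq_mul]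
    ring
  have hstep : ∀ v, R v = v + β (R v) • α - γ v • δ := by
    intro v; rw [hβR, ← hRv]
  have hβ2 : ∀ v, β (R (R v)) = (p * r - 2) * β (R v) - β v := by
    intro v; rw [hβR, hβR, hγR]; ring
  have hγ2 : ∀ v, γ (R (R v)) = (p * r - 2) * γ (R v) - γ v := by
    intro v; rw [hγR, hβR, hγR]; ring
  have hne1 : orderOf R ≠ 1 := fun h => hord (orderOf_eq_one_iff.1 h)
  have hpow : ∀ n (v : V), (R ^ (n + 1)) v = R ((R ^ n) v) := by
    intro n v; rw [pow_succ', Module.End.mul_apply]
  have hR1 : ∀ v, (R ^ 1) v = R v := fun v => by rw [pow_one]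
  have hR2 : ∀ v, (R ^ 2) v = R (R v) := fun v => by rw [hpow, hR1]
  have hR3 : ∀ v, (R ^ 3) v = R (R (R v)) := fun v => by rw [hpow, hR2]
  have hR4 : ∀ v, (R ^ 4) v = R (R (R (R v))) := fun v => by rw [hpow, hR3]
  have hR6 : ∀ v, (R ^ 6) v = R (R (R (R (R (R v))))) := fun v => by
    rw [hpow, hpow, hR4]
  have hcases : p * r = 0 ∨ p * r = 1 ∨ p * r = 2 ∨ p * r = 3 := by omega
  rcases hcases with h | h | h | h
  · left
    refine ⟨h, ?_⟩
    have hz0 : z = 0 := by
      have h1 : (p * r : ℝ) = 0 := by exact_mod_cast h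
      rw [h1, zero_mul] at hprod
      have : z ^ 2 = 0 := by linarith
      exact pow_eq_zero_iff (two_ne_zero) |>.1 this
    have hp0 : (p : ℝ) = 0 := by
      rw [hz0, mul_zero] at e1
      rcases mul_eq_zero.1 e1.symm with h1 | h1
      · exact h1
      · exact absurd h1 hx.ne'
    have hr0 : (r : ℝ) = 0 := by
      rw [hz0, mul_zero] at e2
      rcases mul_eq_zero.1 e2.symm with h1 | h1
      · exact h1
      · exact absurd h1 hy.ne'
    have h2 : R ^ 2 = 1 := by
      apply LinearMap.ext
      intro v
      rw [hR2, Module.End.one_apply]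
      have s1 := hstep v
      have s2 := hstep (R v)
      have t1 : β (R (R v)) = - β (R v) := by rw [hβR (R v), hp0, zero_mul, add_zero]
      have t2 : γ (R v) = - γ v := by rw [hγR v, hp0, hr0]; ring
      generalize β (R (R v)) = b2 at *
      generalize β (R v) = b1 at *
      generalize γ (R v) = c1 at *
      generalize γ v = c0 at *
      rw [s2, s1, t1, t2]
      module
    have h3 := orderOf_dvd_of_pow_eq_one h2
    exact ((Nat.dvd_prime Nat.prime_two).1 h3).resolve_left hne1
  · right; left
    refine ⟨h, ?_⟩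
    have h1 : (p * r : ℝ) = 1 := by exact_mod_cast h
    have h2 : R ^ 3 = 1 := by
      apply LinearMap.ext
      intro v
      rw [hR3, Module.End.one_apply]
      have s1 := hstep v
      have s2 := hstep (R v)
      have s3 := hstep (R (R v))
      have t1 := hβ2 (R v)
      have t2 := hγ2 v
      rw [h1] at t1 t2
      generalize β (R (R (R v))) = b3 at *
      generalize β (R (R v)) = b2 at *
      generalize β (R v) = b1 at *
      generalize γ (R (R v)) = c2 at *
      generalize γ (R v) = c1 at *
      generalize γ v = c0 at *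
      rw [s3, s2, s1, t1, t2]
      module
    have h3 := orderOf_dvd_of_pow_eq_one h2
    exact ((Nat.dvd_prime Nat.prime_three).1 h3).resolve_left hne1
  · right; right; left
    refine ⟨h, ?_⟩
    have h1 : (p * r : ℝ) = 2 := by exact_mod_cast h
    have h2 : R ^ 4 = 1 := by
      apply LinearMap.ext
      intro v
      rw [hR4, Module.End.one_apply]
      have s1 := hstep v
      have s2 := hstep (R v)
      have s3 := hstep (R (R v))
      have s4 := hstep (R (R (R v)))
      have t1 := hβ2 (R (R v))
      have t2 := hβ2 (R v)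
      have t3 := hγ2 (R v)
      have t4 := hγ2 v
      rw [h1] at t1 t2 t3 t4
      generalize β (R (R (R (R v)))) = b4 at *
      generalize β (R (R (R v))) = b3 at *
      generalize β (R (R v)) = b2 at *
      generalize β (R v) = b1 at *
      generalize γ (R (R (R v))) = c3 at *
      generalize γ (R (R v)) = c2 at *
      generalize γ (R v) = c1 at *
      generalize γ v = c0 at *
      rw [s4, s3, s2, s1, t1, t2, t3, t4]
      module
    have h3 := orderOf_dvd_of_pow_eq_one h2
    have h4 : orderOf R ≠ 2 := by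
      intro h5
      have h6 : R ^ 2 = 1 := by rw [← h5]; exact pow_orderOf_eq_one R
      have h7 := hβ2 α
      rw [← hR2, h6, Module.End.one_apply, h1, hβ] at h7
      norm_num at h7
    have h5 : orderOf R ∈ Nat.divisors 4 := Nat.mem_divisors.2 ⟨h3, by norm_num⟩
    have h6 : Nat.divisors 4 = {1, 2, 4} := by decide
    rw [h6] at h5
    simp only [Finset.mem_insert, Finset.mem_singleton] at h5
    omega
  · right; right; right
    refine ⟨h, ?_⟩
    have h1 : (p * r : ℝ) = 3 := by exact_mod_cast h
    have h2 : R ^ 6 = 1 := by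
      apply LinearMap.ext
      intro v
      rw [hR6, Module.End.one_apply]
      have s1 := hstep v
      have s2 := hstep (R v)
      have s3 := hstep (R (R v))
      have s4 := hstep (R (R (R v)))
      have s5 := hstep (R (R (R (R v))))
      have s6 := hstep (R (R (R (R (R v)))))
      have t1 := hβ2 (R (R (R (R v))))
      have t2 := hβ2 (R (R (R v)))
      have t3 := hβ2 (R (R v))
      have t4 := hβ2 (R v)
      have u1 := hγ2 (R (R (R v)))
      have u2 := hγ2 (R (R v))
      have u3 := hγ2 (R v)
      have u4 := hγ2 v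
      rw [h1] at t1 t2 t3 t4 u1 u2 u3 u4
      generalize β (R (R (R (R (R (R v)))))) = b6 at *
      generalize β (R (R (R (R (R v))))) = b5 at *
      generalize β (R (R (R (R v)))) = b4 at *
      generalize β (R (R (R v))) = b3 at *
      generalize β (R (R v)) = b2 at *
      generalize β (R v) = b1 at *
      generalize γ (R (R (R (R (R v))))) = c5 at *
      generalize γ (R (R (R (R v)))) = c4 at *
      generalize γ (R (R (R v))) = c3 at *
      generalize γ (R (R v)) = c2 at *
      generalize γ (R v) = c1 at *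
      generalize γ v = c0 at *
      rw [s6, s5, s4, s3, s2, s1, t1, t2, t3, t4, u1, u2, u3, u4]
      module
    have h3 := orderOf_dvd_of_pow_eq_one h2
    have h4 : orderOf R ≠ 2 := by
      intro h5
      have h6 : R ^ 2 = 1 := by rw [← h5]; exact pow_orderOf_eq_one R
      have h7 := hβ2 α
      rw [← hR2, h6, Module.End.one_apply, h1, hβ] at h7
      have h8 := hβ2 (R α)
      rw [← hR2 α, h6, Module.End.one_apply, hβ, h1] at h8
      linarith
    have h5 : orderOf R ≠ 3 := by
      intro h5
      have h6 : R ^ 3 = 1 := by rw [← h5]; exact pow_orderOf_eq_one R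
      have h7 := hβ2 α
      have h8 := hβ2 (R α)
      rw [← hR3, h6, Module.End.one_apply, h7, h1, hβ] at h8
      linarith
    have h6 : orderOf R ∈ Nat.divisors 6 := Nat.mem_divisors.2 ⟨h3, by norm_num⟩
    have h7 : Nat.divisors 6 = {1, 2, 3, 6} := by decide
    rw [h7] at h6
    simp only [Finset.mem_insert, Finset.mem_singleton] at h6
    omega

end pair

end Pool.Agent.H76.Weyl
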