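import Mathlib

/-!
# Integral affine manifolds and their reflections
-/

set_option autoImplicit false

open Filter Topology

namespace Pool.Agent.H76.Weyl

/-- The integral affine map `v ↦ A v + b` of `ℝ^q`, with `A ∈ GL_q(ℤ)` and `b ∈ ℝ^q`. -/
def aff {q : ℕ} (A : GL (Fin q) ℤ) (b : Fin q → ℝ) (v : Fin q → ℝ) : Fin q → ℝ :=
  (A.1.map (Int.cast : ℤ → ℝ)).mulVec v + b

/-- An integral affine structure on the `q`-dimensional manifold `X`: an atlas of charts with values
in open subsets of `ℝ^q` whose coordinate changes are locally of the form `v ↦ A v + b` with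
`A ∈ GL_q(ℤ)` and `b ∈ ℝ^q`. -/
structure IntegralAffine (q : ℕ) (X : Type) [TopologicalSpace X] where
  /-- the charts -/
  charts : Set (OpenPartialHomeomorph X (Fin q → ℝ))
  /-- the charts cover `X` -/
  cover : ∀ x : X, ∃ e ∈ charts, x ∈ e.source
  /-- the coordinate changes are locally integral affine -/
  compatible : ∀ e ∈ charts, ∀ f ∈ charts, ∀ x ∈ e.source ∩ f.source,
    ∃ (A : GL (Fin q) ℤ) (b : Fin q → ℝ), ∀ᶠ y in 𝓝 x, f y = aff A b (e y)

variable {q : ℕ} {X : Type} [TopologicalSpace X]

/-- The map `g` is integral affine: in the charts it is locally of the form `v ↦ A v + b` with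
`A ∈ GL_q(ℤ)` and `b ∈ ℝ^q`. -/
def IntegralAffine.IsAffine (S : IntegralAffine q X) (g : X → X) : Prop :=
  ∀ e ∈ S.charts, ∀ f ∈ S.charts, ∀ x ∈ e.source, g x ∈ f.source →
    ∃ (A : GL (Fin q) ℤ) (b : Fin q → ℝ), ∀ᶠ y in 𝓝 x, f (g y) = aff A b (e y)

/-- The map `g` is a geometric reflection: an involution that has a fixed point near which, in a
chart, its fixed points are the points of a hyperplane. -/
def IntegralAffine.IsReflection (S : IntegralAffine q X) (g : X → X) : Prop :=
  (∀ x, g (g x) = x) ∧ ∃ x, g x = x ∧ ∃ e ∈ S.charts, x ∈ e.source ∧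
    ∃ c : Fin q → ℝ, c ≠ 0 ∧ ∀ᶠ y in 𝓝 x, (g y = y ↔ ∑ i, c i * (e y i - e x i) = 0)

/-- A Cartan matrix of finite type, that is, the Cartan matrix of a complex semisimple Lie algebra
(or of its compact real form): an integral matrix with entries `2` on the diagonal and
nonpositive entries off the diagonal which becomes symmetric and positive definite when its rows
are multiplied by suitable positive numbers. -/
structure IsCartanMatrix {ι : Type} [Fintype ι] (C : Matrix ι ι ℤ) : Prop where
  diag : ∀ i, C i i = 2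
  nonpos : ∀ i j, i ≠ j → C i j ≤ 0
  symmetrizable : ∃ d : ι → ℝ, (∀ i, 0 < d i) ∧ (∀ i j, d i * C i j = d j * C j i) ∧
    ∀ x : ι → ℝ, x ≠ 0 → 0 < ∑ i, ∑ j, d i * C i j * (x i * x j)

/-- The Coxeter matrix `M` is of Lie type: it is the Coxeter matrix of the Weyl group of a compact
Lie algebra. If `C` is the Cartan matrix of the Lie algebra, the order `M i j` of the product of two
different simple reflections is `2`, `3`, `4` or `6` according as `C i j * C j i` is
`0`, `1`, `2` or `3`. -/
def IsLieType {ι : Type} [Fintype ι] (M : CoxeterMatrix ι) : Prop :=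
  ∃ C : Matrix ι ι ℤ, IsCartanMatrix C ∧ ∀ i j, i ≠ j →
    (C i j * C j i = 0 ∧ M i j = 2) ∨ (C i j * C j i = 1 ∧ M i j = 3) ∨
    (C i j * C j i = 2 ∧ M i j = 4) ∨ (C i j * C j i = 3 ∧ M i j = 6)

end Pool.Agent.H76.Weyl
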