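import Mathlib
import Pool.Agent.H76.Weyl.Defs

set_option autoImplicit false

open Filter Topology Set

namespace Pool.Agent.H76.Weyl

variable {q : ℕ}

/-- the linear part as a continuous linear map -/
noncomputable def linC (A : GL (Fin q) ℤ) : (Fin q → ℝ) →L[ℝ] (Fin q → ℝ) :=
  LinearMap.toContinuousLinearMap ((A.1.map (Int.cast : ℤ → ℝ)).mulVecLin)

lemma aff_hasFDerivAt (A : GL (Fin q) ℤ) (b v : Fin q → ℝ) :
    HasFDerivAt (aff A b) (linC A) v := by
  have h : aff A b = fun v => linC A v + b := by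
    funext v; simp [aff, linC]
  rw [h]
  exact (linC A).hasFDerivAt.add_const b

lemma aff_unique {A A' : GL (Fin q) ℤ} {b b' v₀ : Fin q → ℝ}
    (h : ∀ᶠ v in 𝓝 v₀, aff A b v = aff A' b' v) : A = A' ∧ b = b' := by
  have h1 : (A.1.map (Int.cast : ℤ → ℝ)) = (A'.1.map (Int.cast : ℤ → ℝ)) := by
    have e : aff A b =ᶠ[𝓝 v₀] aff A' b' := h
    have h2 := Filter.EventuallyEq.fderiv_eq (𝕜 := ℝ) e
    rw [(aff_hasFDerivAt A b v₀).fderiv, (aff_hasFDerivAt A' b' v₀).fderiv] at h2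
    have h3 : ∀ v, (A.1.map (Int.cast : ℤ → ℝ)).mulVec v =
        (A'.1.map (Int.cast : ℤ → ℝ)).mulVec v := fun v =>
      congrArg (fun L : (Fin q → ℝ) →L[ℝ] (Fin q → ℝ) => L v) h2
    exact Matrix.ext_of_mulVec_single fun i => h3 _
  have h2 : A = A' := by
    apply Units.ext
    ext i j
    have := congrFun (congrFun h1 i) j
    simpa using this
  refine ⟨h2, ?_⟩
  have h3 := h.self_of_nhds
  subst h2
  simpa [aff] using h3

/-- The type of integral affine maps of `ℝ^q`, as functions. -/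
def AffMap (q : ℕ) : Type :=
  {φ : (Fin q → ℝ) → (Fin q → ℝ) // ∃ (A : GL (Fin q) ℤ) (b : Fin q → ℝ), φ = aff A b}

instance : TopologicalSpace (AffMap q) := ⊥
instance : DiscreteTopology (AffMap q) := ⟨rfl⟩

lemma aff_comp (A A' : GL (Fin q) ℤ) (b b' : Fin q → ℝ) :
    aff A b ∘ aff A' b' = aff (A * A') ((A.1.map (Int.cast : ℤ → ℝ)).mulVec b' + b) := by
  funext v
  have : ((A * A' : GL (Fin q) ℤ).1.map (Int.cast : ℤ → ℝ)) =
      (A.1.map (Int.cast : ℤ → ℝ)) * (A'.1.map (Int.cast : ℤ → ℝ)) := by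
    have := Matrix.map_mul (L := A.1) (M := A'.1) (f := Int.castRingHom ℝ)
    simpa using this
  simp only [aff, Function.comp_apply, this, Matrix.mulVec_add, Matrix.mulVec_mulVec]
  abel

lemma aff_one : aff (1 : GL (Fin q) ℤ) 0 = id := by
  funext v
  simp [aff]

namespace AffMap

lemma ext_nhds {φ ψ : AffMap q} {v₀ : Fin q → ℝ} (h : ∀ᶠ v in 𝓝 v₀, φ.1 v = ψ.1 v) : φ = ψ := by
  obtain ⟨φ, A, b, rfl⟩ := φ
  obtain ⟨ψ, A', b', rfl⟩ := ψ
  obtain ⟨rfl, rfl⟩ := aff_unique h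
  rfl

/-- composition -/
def comp (φ ψ : AffMap q) : AffMap q :=
  ⟨φ.1 ∘ ψ.1, by
    obtain ⟨φ, A, b, rfl⟩ := φ
    obtain ⟨ψ, A', b', rfl⟩ := ψ
    exact ⟨_, _, aff_comp A A' b b'⟩⟩

/-- identity -/
def one : AffMap q := ⟨id, 1, 0, aff_one.symm⟩

end AffMap

variable {X : Type} [TopologicalSpace X]

lemma eventually_chart {e : OpenPartialHomeomorph X (Fin q → ℝ)} {x : X} (hx : x ∈ e.source)
    {P : (Fin q → ℝ) → Prop} (h : ∀ᶠ y in 𝓝 x, P (e y)) : ∀ᶠ v in 𝓝 (e x), P v := by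
  rw [← e.map_nhds_eq hx]
  exact h

namespace IntegralAffine

variable (S : IntegralAffine q X)

lemma exists_trans (e f : S.charts) (x : X) (hx : x ∈ e.1.source ∩ f.1.source) :
    ∃ φ : AffMap q, ∀ᶠ y in 𝓝 x, f.1 y = φ.1 (e.1 y) := by
  obtain ⟨A, b, h⟩ := S.compatible e.1 e.2 f.1 f.2 x hx
  exact ⟨⟨aff A b, A, b, rfl⟩, h⟩

open Classical in
/-- the coordinate change from `e` to `f` at `x` -/
noncomputable def tr (e f : S.charts) (x : X) : AffMap q :=
  if hx : x ∈ e.1.source ∩ f.1.source then (S.exists_trans e f x hx).choose else AffMap.one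

lemma tr_spec {e f : S.charts} {x : X} (hx : x ∈ e.1.source ∩ f.1.source) :
    ∀ᶠ y in 𝓝 x, f.1 y = (S.tr e f x).1 (e.1 y) := by
  rw [tr, dif_pos hx]
  exact (S.exists_trans e f x hx).choose_spec

lemma tr_unique {e f : S.charts} {x : X} (hx : x ∈ e.1.source ∩ f.1.source) {φ : AffMap q}
    (h : ∀ᶠ y in 𝓝 x, f.1 y = φ.1 (e.1 y)) : S.tr e f x = φ := by
  have h1 := S.tr_spec hx
  have h2 : ∀ᶠ y in 𝓝 x, (S.tr e f x).1 (e.1 y) = φ.1 (e.1 y) := by
    filter_upwards [h, h1] with y hy1 hy2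
    rw [← hy2, hy1]
  exact AffMap.ext_nhds (eventually_chart hx.1 (P := fun v => (S.tr e f x).1 v = φ.1 v) h2)

lemma tr_eventually {e f : S.charts} {x : X} (hx : x ∈ e.1.source ∩ f.1.source) :
    ∀ᶠ y in 𝓝 x, S.tr e f y = S.tr e f x := by
  have h1 := (S.tr_spec hx).eventually_nhds
  have h2 : ∀ᶠ y in 𝓝 x, y ∈ e.1.source ∩ f.1.source :=
    (e.1.open_source.inter f.1.open_source).mem_nhds hx
  filter_upwards [h1, h2] with y hy1 hy2
  exact S.tr_unique hy2 hy1

lemma tr_self (e : S.charts) (x : X) (hx : x ∈ e.1.source) : S.tr e e x = AffMap.one :=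
  S.tr_unique ⟨hx, hx⟩ (Eventually.of_forall fun _ => rfl)

lemma tr_comp (e f g : S.charts) (x : X) (he : x ∈ e.1.source) (hf : x ∈ f.1.source)
    (hg : x ∈ g.1.source) : (S.tr f g x).comp (S.tr e f x) = S.tr e g x := by
  refine (S.tr_unique ⟨he, hg⟩ ?_).symm
  filter_upwards [S.tr_spec (e := e) (f := f) (x := x) ⟨he, hf⟩,
    S.tr_spec (e := f) (f := g) (x := x) ⟨hf, hg⟩] with y h1 h2
  change g.1 y = (S.tr f g x).1 ((S.tr e f x).1 (e.1 y))
  rw [← h1, h2]

/-- chart at a point -/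
noncomputable def ch (x : X) : S.charts := ⟨(S.cover x).choose, (S.cover x).choose_spec.1⟩

lemma mem_ch (x : X) : x ∈ (S.ch x).1.source := (S.cover x).choose_spec.2

/-- The bundle of germs of integral affine maps to `ℝ^q`. -/
noncomputable def core : FiberBundleCore S.charts X (AffMap q) where
  baseSet e := e.1.source
  isOpen_baseSet e := e.1.open_source
  indexAt := S.ch
  mem_baseSet_at := S.mem_ch
  coordChange e f x φ := φ.comp (S.tr f e x)
  coordChange_self e x hx φ := by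
    rw [S.tr_self e x hx]; rfl
  continuousOn_coordChange e f := by
    rintro ⟨x, φ⟩ ⟨hx, -⟩
    have h1 : ∀ᶠ p : X × AffMap q in 𝓝 (x, φ), p.2.comp (S.tr f e p.1) = φ.comp (S.tr f e x) := by
      have h2 := S.tr_eventually (e := f) (f := e) (x := x) ⟨hx.2, hx.1⟩
      have h3 : ∀ᶠ ψ in 𝓝 φ, ψ = φ := by
        rw [nhds_discrete]; exact rfl
      have h4 := h2.prod_nhds h3
      filter_upwards [h4] with p hp
      rw [hp.1, hp.2]
    apply ContinuousAt.continuousWithinAt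
    refine (continuousAt_const (y := φ.comp (S.tr f e x))).congr ?_
    filter_upwards [h1] with p hp
    exact hp.symm
  coordChange_comp e f g x hx φ := by
    have := S.tr_comp g f e x hx.2 hx.1.2 hx.1.1
    rw [← this]
    rfl

include S in
lemma locPath : LocallyPathConnectedSpace X := by
  let _ : ChartedSpace (Fin q → ℝ) X :=
    { atlas := S.charts
      chartAt := fun x => (S.ch x).1
      mem_chart_source := S.mem_ch
      chart_mem_atlas := fun x => (S.ch x).2 }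
  exact ChartedSpace.locallyPathConnectedSpace (Fin q → ℝ) X

include S in
lemma locCompact : LocallyCompactSpace X := by
  let _ : ChartedSpace (Fin q → ℝ) X :=
    { atlas := S.charts
      chartAt := fun x => (S.ch x).1
      mem_chart_source := S.mem_ch
      chart_mem_atlas := fun x => (S.ch x).2 }
  exact ChartedSpace.locallyCompactSpace (Fin q → ℝ) X

/-- A developing map: a map to `ℝ^q` that is in the charts locally of the form `v ↦ A v + b` with
`A ∈ GL_q(ℤ)`. -/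
def IsDev (d : X → Fin q → ℝ) : Prop :=
  ∀ e ∈ S.charts, ∀ x ∈ e.source, ∃ φ : AffMap q, ∀ᶠ y in 𝓝 x, d y = φ.1 (e y)

theorem exists_dev [SimplyConnectedSpace X] : ∃ d : X → Fin q → ℝ, S.IsDev d := by
  have := S.locPath
  have cov : IsCoveringMap (Bundle.TotalSpace.proj : S.core.TotalSpace → X) :=
    FiberBundle.isCoveringMap (F := AffMap q) (E := S.core.Fiber)
  obtain ⟨x₀⟩ : Nonempty X := inferInstance
  obtain ⟨σ, ⟨-, hσ⟩, -⟩ := cov.existsUnique_continuousMap_lifts (ContinuousMap.id X) x₀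
    (⟨x₀, AffMap.one⟩ : S.core.TotalSpace) rfl
  have hσ' : ∀ x, (σ x).1 = x := fun x => congrFun hσ x
  -- the local representation in a chart
  refine ⟨fun x => (show AffMap q from (σ x).2).1 ((S.ch (σ x).1).1 x), ?_⟩
  intro e he x hx
  -- the second coordinate of the local trivialization
  have hcont : ContinuousAt (fun y => (S.core.localTriv ⟨e, he⟩ (σ y)).2) x := by
    have h1 : ContinuousAt (S.core.localTriv ⟨e, he⟩) (σ x) := by
      refine (S.core.localTriv ⟨e, he⟩).continuousAt ?_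
      rw [FiberBundleCore.mem_localTriv_source, hσ']
      exact hx
    exact continuousAt_snd.comp (ContinuousAt.comp h1 σ.continuous.continuousAt)
  set φ : AffMap q := (S.core.localTriv ⟨e, he⟩ (σ x)).2 with hφ
  have hev : ∀ᶠ y in 𝓝 x, (S.core.localTriv ⟨e, he⟩ (σ y)).2 = φ := by
    have h2 : {φ} ∈ 𝓝 φ := by rw [nhds_discrete]; exact rfl
    exact hcont h2
  refine ⟨φ, ?_⟩
  filter_upwards [hev, e.open_source.mem_nhds hx] with y hy hys
  have h3 : (S.core.localTriv ⟨e, he⟩ (σ y)).2 =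
      S.core.coordChange (S.ch (σ y).1) ⟨e, he⟩ (σ y).1 (σ y).2 := by
    rw [FiberBundleCore.localTriv_apply]
    rfl
  rw [← hy, h3]
  change _ = (show AffMap q from (σ y).2).1 ((S.tr ⟨e, he⟩ (S.ch (σ y).1) (σ y).1).1 (e y))
  have h5 : (S.ch (σ y).1).1 y = (S.tr ⟨e, he⟩ (S.ch (σ y).1) (σ y).1).1 (e y) := by
    rw [hσ' y]
    exact (S.tr_spec (e := ⟨e, he⟩) (f := S.ch y) (x := y) ⟨hys, S.mem_ch y⟩).self_of_nhds
  exact congrArg (show AffMap q from (σ y).2).1 h5

end IntegralAffine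

end Pool.Agent.H76.Weyl
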