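import Mathlib
import Pool.Agent.H76.Weyl.Dev

set_option autoImplicit false

open Filter Topology Set

namespace Pool.Agent.H76.Weyl

variable {q : ℕ}

/-- real matrix of an integral matrix -/
def mr (A : GL (Fin q) ℤ) : Matrix (Fin q) (Fin q) ℝ := A.1.map (Int.cast : ℤ → ℝ)

lemma mr_mul (A B : GL (Fin q) ℤ) : mr (A * B) = mr A * mr B := by
  have := Matrix.map_mul (L := A.1) (M := B.1) (f := Int.castRingHom ℝ)
  simpa [mr] using this

lemma mr_one : mr (1 : GL (Fin q) ℤ) = 1 := by
  simp [mr]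

lemma mr_inj {A B : GL (Fin q) ℤ} (h : mr A = mr B) : A = B := by
  apply Units.ext
  ext i j
  have := congrFun (congrFun h i) j
  simpa [mr] using this

lemma aff_apply (A : GL (Fin q) ℤ) (b v : Fin q → ℝ) : aff A b v = (mr A).mulVec v + b := rfl

lemma aff_aff (A A' : GL (Fin q) ℤ) (b b' v : Fin q → ℝ) :
    aff A b (aff A' b' v) = aff (A * A') ((mr A).mulVec b' + b) v := by
  have := congrFun (aff_comp A A' b b') v
  exact this

/-- an integral affine map as a homeomorphism -/
noncomputable def affHomeo (A : GL (Fin q) ℤ) (b : Fin q → ℝ) : (Fin q → ℝ) ≃ₜ (Fin q → ℝ) where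
  toFun := aff A b
  invFun := aff A⁻¹ (-(mr A⁻¹).mulVec b)
  left_inv v := by
    rw [aff_aff, inv_mul_cancel, add_neg_cancel, aff_one]; rfl
  right_inv v := by
    rw [aff_aff, mul_inv_cancel, Matrix.mulVec_neg, Matrix.mulVec_mulVec, ← mr_mul,
      mul_inv_cancel, mr_one, Matrix.one_mulVec, neg_add_cancel, aff_one]; rfl
  continuous_toFun := by
    unfold aff; fun_prop
  continuous_invFun := by
    unfold aff; fun_prop

variable {X : Type} [TopologicalSpace X] (S : IntegralAffine q X)

namespace IntegralAffine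

variable {S} {d : X → Fin q → ℝ}

lemma IsDev.exists_local (hd : S.IsDev d) (x : X) : ∃ e ∈ S.charts, x ∈ e.source ∧
    ∃ (A : GL (Fin q) ℤ) (b : Fin q → ℝ), ∀ᶠ y in 𝓝 x, d y = aff A b (e y) := by
  obtain ⟨e, he, hx⟩ := S.cover x
  obtain ⟨⟨φ, A, b, rfl⟩, h⟩ := hd e he x hx
  exact ⟨e, he, hx, A, b, h⟩

lemma IsDev.continuous (hd : S.IsDev d) : Continuous d := by
  rw [continuous_iff_continuousAt]
  intro x
  obtain ⟨e, he, hx, A, b, h⟩ := hd.exists_local x
  have h1 : ContinuousAt (fun y => aff A b (e y)) x :=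
    (affHomeo A b).continuous.continuousAt.comp (e.continuousAt hx)
  refine h1.congr ?_
  filter_upwards [h] with y hy
  exact hy.symm

lemma IsDev.map_nhds (hd : S.IsDev d) (x : X) : map d (𝓝 x) = 𝓝 (d x) := by
  obtain ⟨e, he, hx, A, b, h⟩ := hd.exists_local x
  have h1 : d =ᶠ[𝓝 x] (affHomeo A b) ∘ e := h
  rw [Filter.map_congr h1, ← Filter.map_map, e.map_nhds_eq hx, (affHomeo A b).map_nhds_eq]
  congr 1
  exact h.self_of_nhds.symm

lemma IsDev.inj (hd : S.IsDev d) (x : X) : ∃ U ∈ 𝓝 x, InjOn d U := by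
  obtain ⟨e, he, hx, A, b, h⟩ := hd.exists_local x
  refine ⟨e.source ∩ {y | d y = aff A b (e y)}, inter_mem (e.open_source.mem_nhds hx) h, ?_⟩
  rintro y ⟨hy, hy'⟩ z ⟨hz, hz'⟩ hyz
  rw [mem_ofPred_eq] at hy' hz'
  rw [hy', hz'] at hyz
  exact e.injOn hy hz ((affHomeo A b).injective hyz)

/-- an affine map is determined by its composition with the developing map near a point -/
lemma IsDev.unique (hd : S.IsDev d) {x : X} {A A' : GL (Fin q) ℤ} {b b' : Fin q → ℝ}
    (h : ∀ᶠ y in 𝓝 x, aff A b (d y) = aff A' b' (d y)) : A = A' ∧ b = b' := by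
  apply aff_unique (v₀ := d x)
  rw [← hd.map_nhds x]
  exact h

/-- Holonomy: an integral affine map of a connected space is given by one integral affine map
in the developing map. -/
theorem IsDev.exists_hol [ConnectedSpace X] (hd : S.IsDev d) {g : X → X} (hg : Continuous g)
    (hgS : S.IsAffine g) :
    ∃ (A : GL (Fin q) ℤ) (b : Fin q → ℝ), ∀ x, d (g x) = aff A b (d x) := by
  have loc : ∀ x, ∃ (A : GL (Fin q) ℤ) (b : Fin q → ℝ), ∀ᶠ y in 𝓝 x, d (g y) = aff A b (d y) := by
    intro x
    obtain ⟨e, he, hx, A, b, h⟩ := hd.exists_local x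
    obtain ⟨f, hf, hgx, A', b', h'⟩ := hd.exists_local (g x)
    obtain ⟨B, c, hB⟩ := hgS e he f hf x hx hgx
    have h'' := hg.continuousAt.eventually h'
    refine ⟨A' * B * A⁻¹, (mr (A' * B)).mulVec (-(mr A⁻¹).mulVec b) + ((mr A').mulVec c + b'), ?_⟩
    filter_upwards [h, hB, h''] with y h1 h2 h3
    have h4 : e y = aff A⁻¹ (-(mr A⁻¹).mulVec b) (d y) := by
      rw [h1]
      exact ((affHomeo A b).left_inv (e y)).symm
    rw [h3, h2, h4, aff_aff, aff_aff]
  choose A b hAb using loc
  -- the set where the affine map is the given one is open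
  have key : ∀ x, ∀ᶠ y in 𝓝 x, A y = A x ∧ b y = b x := by
    intro x
    filter_upwards [(hAb x).eventually_nhds] with y hy
    apply hd.unique (x := y)
    filter_upwards [hy, hAb y] with z h1 h2
    rw [← h1, ← h2]
  obtain ⟨x₀⟩ : Nonempty X := inferInstance
  have hA : IsLocallyConstant A := by
    rw [IsLocallyConstant.iff_eventually_eq]
    intro x
    filter_upwards [key x] with y hy using hy.1
  have hb : IsLocallyConstant b := by
    rw [IsLocallyConstant.iff_eventually_eq]
    intro x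
    filter_upwards [key x] with y hy using hy.2
  refine ⟨A x₀, b x₀, fun x => ?_⟩
  rw [← hA.apply_eq_of_isPreconnected isPreconnected_univ (mem_univ x) (mem_univ x₀),
    ← hb.apply_eq_of_isPreconnected isPreconnected_univ (mem_univ x) (mem_univ x₀)]
  exact (hAb x).self_of_nhds

/-- A map which is trivial in the developing map and has a fixed point is the identity. -/
theorem IsDev.eq_id [T2Space X] [ConnectedSpace X] (hd : S.IsDev d) {g : X → X}
    (hg : Continuous g) (h : ∀ x, d (g x) = d x) {x₀ : X} (hx₀ : g x₀ = x₀) (x : X) : g x = x := by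
  have hcl : IsClosed {x | g x = x} := isClosed_eq hg continuous_id
  have hop : IsOpen {x | g x = x} := by
    rw [isOpen_iff_mem_nhds]
    intro y hy
    rw [mem_ofPred_eq] at hy
    obtain ⟨U, hU, hinj⟩ := hd.inj y
    have h1 : ∀ᶠ z in 𝓝 y, g z ∈ U := by
      have : Tendsto g (𝓝 y) (𝓝 y) := by
        have := hg.tendsto y
        rwa [hy] at this
      exact this hU
    filter_upwards [h1, hU] with z h2 h3
    exact hinj h2 h3 (h z)
  have h2 : {x | g x = x} = univ := IsClopen.eq_univ ⟨hcl, hop⟩ ⟨x₀, hx₀⟩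
  have : x ∈ {x | g x = x} := by rw [h2]; exact mem_univ x
  exact this

end IntegralAffine

end Pool.Agent.H76.Weyl
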