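import Mathlib

set_option autoImplicit false

open Filter Topology Set

namespace Pool.Agent.H76.Weyl

variable {X : Type} [TopologicalSpace X]

/-- Separation: an odd function whose zeros are a closed and relatively open set of fixed points. -/
theorem exists_odd [SimplyConnectedSpace X] [LocallyPathConnectedSpace X] [NormalSpace X]
    {s : X → X} (hs : Continuous s) (hss : ∀ x, s (s x) = x) {l : X → ℝ} (hl : Continuous l)
    (hodd : ∀ x, l (s x) = - l x) {F Z : Set X} (hF : IsClosed F) (hZ : IsClosed Z)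
    (hFZ : Disjoint F Z) (hzero : ∀ x, l x = 0 ↔ x ∈ F ∪ Z) (hfix : ∀ x ∈ F, s x = x)
    {x₀ : X} (hx₀ : x₀ ∈ F) :
    ∃ φ : X → ℝ, Continuous φ ∧ (∀ x, φ (s x) = - φ x) ∧ ∀ x, φ x = 0 ↔ x ∈ F := by
  obtain ⟨f, hf0, hf1, hf01⟩ := exists_continuous_zero_one_of_isClosed hF hZ hFZ
  set h : X → ℝ := fun x => max (f x) (f (s x)) with hh
  have hhc : Continuous h := f.continuous.max (f.continuous.comp hs)
  have hhs : ∀ x, h (s x) = h x := fun x => by simp [hh, hss, max_comm]
  have hhF : ∀ x ∈ F, h x = 0 := fun x hx => by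
    simp [hh, hfix x hx, hf0 hx]
  have hhZ : ∀ x ∈ Z, 1 ≤ h x := fun x hx => by
    have : f x = 1 := hf1 hx
    simp [hh, this]
  have hh0 : ∀ x, 0 ≤ h x := fun x => le_max_of_le_left (hf01 x).1
  set g : X → ℝ := fun x => min 1 (|l x| + h x) with hg
  have hgc : Continuous g := continuous_const.min (hl.abs.add hhc)
  have hgs : ∀ x, g (s x) = g x := fun x => by simp [hg, hodd, hhs]
  have hg0 : ∀ x, 0 ≤ g x := fun x => le_min zero_le_one (add_nonneg (abs_nonneg _) (hh0 x))
  have hg1 : ∀ x, g x ≤ 1 := fun x => min_le_left _ _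
  have hgF : ∀ x ∈ F, g x = 0 := fun x hx => by
    have h1 : l x = 0 := (hzero x).2 (Or.inl hx)
    simp [hg, h1, hhF x hx]
  have hgZ : ∀ x ∈ Z, g x = 1 := fun x hx => by
    have h1 : l x = 0 := (hzero x).2 (Or.inr hx)
    have h2 := hhZ x hx
    simp only [hg, h1, abs_zero, zero_add]
    exact min_eq_left h2
  have hgF' : ∀ x, g x = 0 → x ∈ F := by
    intro x hx
    have h1 : |l x| + h x = 0 := by
      rcases min_choice 1 (|l x| + h x) with h2 | h2
      · simp only [hg] at hx; rw [h2] at hx; norm_num at hx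
      · simp only [hg] at hx; rw [h2] at hx; exact hx
    have h2 : l x = 0 := by
      have := abs_nonneg (l x)
      have := hh0 x
      have h3 : |l x| = 0 := by linarith
      exact abs_eq_zero.1 h3
    rcases (hzero x).1 h2 with h3 | h3
    · exact h3
    · have := hgZ x h3
      rw [this] at hx; norm_num at hx
  -- the circle valued function
  let U : X → AddCircle (2 : ℝ) := fun x => if 0 < l x then (g x : AddCircle (2 : ℝ)) else
    ((- g x : ℝ) : AddCircle (2 : ℝ))
  have hone : ((1 : ℝ) : AddCircle (2 : ℝ)) = ((-1 : ℝ) : AddCircle (2 : ℝ)) := by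
    have h1 : (((-1 : ℝ) + 2 : ℝ) : AddCircle (2 : ℝ)) = ((-1 : ℝ) : AddCircle (2 : ℝ)) := by
      rw [AddCircle.coe_add_period]
    rw [← h1]; norm_num
  have hab : ∀ x, l x = 0 → (g x : AddCircle (2 : ℝ)) = ((- g x : ℝ) : AddCircle (2 : ℝ)) := by
    intro x hx
    rcases (hzero x).1 hx with h1 | h1
    · rw [hgF x h1]; simp
    · rw [hgZ x h1]; exact hone
  have hca : Continuous fun x => (g x : AddCircle (2 : ℝ)) :=
    (AddCircle.continuous_mk' (2 : ℝ)).comp hgc
  have hcb : Continuous fun x => ((- g x : ℝ) : AddCircle (2 : ℝ)) :=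
    (AddCircle.continuous_mk' (2 : ℝ)).comp hgc.neg
  have hUc : Continuous U := by
    rw [continuous_iff_continuousAt]
    intro x
    rcases lt_trichotomy (l x) 0 with h1 | h1 | h1
    · refine (hcb.continuousAt (x := x)).congr ?_
      filter_upwards [hl.continuousAt.eventually (gt_mem_nhds h1)] with y hy
      simp only [U]
      rw [if_neg (not_lt.2 hy.le)]
    · have h2 : U x = (g x : AddCircle (2 : ℝ)) := by
        simp only [U]
        rw [if_neg (by rw [h1]; exact lt_irrefl 0)]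
        exact (hab x h1).symm
      change Tendsto U (𝓝 x) (𝓝 (U x))
      rw [h2]
      refine Tendsto.if' (hca.tendsto x) ?_
      have h3 := hcb.tendsto x
      rw [← hab x h1] at h3
      exact h3
    · refine (hca.continuousAt (x := x)).congr ?_
      filter_upwards [hl.continuousAt.eventually (lt_mem_nhds h1)] with y hy
      simp only [U]
      rw [if_pos hy]
  have hUs : ∀ x, U (s x) = - U x := by
    intro x
    simp only [U, hodd, hgs]
    rcases lt_trichotomy (l x) 0 with h1 | h1 | h1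
    · rw [if_pos (by linarith), if_neg (by linarith)]
      simp
    · rw [if_neg (by rw [h1]; simp), if_neg (by rw [h1]; simp)]
      rw [← hab x h1]
      rw [hab x h1, AddCircle.coe_neg, neg_neg]
      have := hab x h1
      rw [AddCircle.coe_neg] at this
      exact this.symm
    · rw [if_neg (by linarith), if_pos h1]
      simp
  have cov : IsCoveringMap ((↑) : ℝ → AddCircle (2 : ℝ)) := AddCircle.isCoveringMap_coe 2
  have hU0 : ((0 : ℝ) : AddCircle (2 : ℝ)) = (⟨U, hUc⟩ : C(X, AddCircle (2 : ℝ))) x₀ := by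
    change _ = U x₀
    have h1 : l x₀ = 0 := (hzero x₀).2 (Or.inl hx₀)
    simp only [U]
    rw [if_neg (by rw [h1]; simp), hgF x₀ hx₀]
    simp
  obtain ⟨φ, ⟨hφ0, hφU⟩, huniq⟩ := cov.existsUnique_continuousMap_lifts
    (⟨U, hUc⟩ : C(X, AddCircle (2 : ℝ))) x₀ (0 : ℝ) hU0
  have hφU' : ∀ x, ((φ x : ℝ) : AddCircle (2 : ℝ)) = U x := fun x => congrFun hφU x
  have hψ := huniq (⟨fun x => - φ (s x), (φ.continuous.comp hs).neg⟩ : C(X, ℝ)) ⟨by
    change - φ (s x₀) = 0
    rw [hfix x₀ hx₀, hφ0, neg_zero], by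
    funext x
    change ((- φ (s x) : ℝ) : AddCircle (2 : ℝ)) = U x
    rw [AddCircle.coe_neg, hφU', hUs, neg_neg]⟩
  have hsym : ∀ x, - φ (s x) = φ x := fun x => congrArg (fun F : C(X, ℝ) => F x) hψ
  refine ⟨φ, φ.continuous, fun x => by linarith [hsym x], fun x => ⟨fun hx => ?_, fun hx => ?_⟩⟩
  · have h1 := hφU' x
    rw [hx] at h1
    -- `U x = 0`
    have h2 : ∀ r : ℝ, |r| ≤ 1 → ((r : ℝ) : AddCircle (2 : ℝ)) = ((0 : ℝ) : AddCircle (2 : ℝ)) →
        r = 0 := by
      intro r hr h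
      rw [show ((0 : ℝ) : AddCircle (2 : ℝ)) = 0 from rfl, AddCircle.coe_eq_zero_iff] at h
      obtain ⟨n, hn⟩ := h
      rw [← hn, zsmul_eq_mul, abs_mul, abs_of_pos (two_pos : (0 : ℝ) < 2)] at hr
      have h3 : |(n : ℝ)| < 1 := by linarith
      have h4 : n = 0 := by
        rw [← Int.cast_abs] at h3
        have : |n| < 1 := by exact_mod_cast h3
        exact Int.abs_lt_one_iff.1 this
      rw [← hn, h4, zero_zsmul]
    apply hgF'
    simp only [U] at h1
    split_ifs at h1 with h3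
    · exact h2 _ (abs_le.2 ⟨by linarith [hg0 x], hg1 x⟩) h1.symm
    · have := h2 _ (by rw [abs_neg]; exact abs_le.2 ⟨by linarith [hg0 x], hg1 x⟩) h1.symm
      linarith
  · have := hsym x
    rw [hfix x hx] at this
    linarith

/-- The set of fixed points is preconnected. -/
theorem fix_preconnected [SimplyConnectedSpace X] [LocallyPathConnectedSpace X] [NormalSpace X]
    {s : X → X} (hs : Continuous s) (hss : ∀ x, s (s x) = x) {l : X → ℝ} (hl : Continuous l)
    (hodd : ∀ x, l (s x) = - l x) {F Z : Set X} (hF : IsClosed F) (hZ : IsClosed Z)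
    (hFZ : Disjoint F Z) (hzero : ∀ x, l x = 0 ↔ x ∈ F ∪ Z) (hfix : ∀ x, x ∈ F ↔ s x = x) :
    IsPreconnected F := by
  rw [isPreconnected_closed_iff]
  rintro t t' ht ht' hcov ⟨x₀, hx₀, hx₀t⟩ ⟨x₁, hx₁, hx₁t⟩
  by_contra hcon
  rw [not_nonempty_iff_eq_empty] at hcon
  have hd : ∀ x ∈ F, x ∈ t → x ∈ t' → False := fun x hx h h' => by
    have : x ∈ F ∩ (t ∩ t') := ⟨hx, h, h'⟩
    rw [hcon] at this
    exact this
  obtain ⟨φ, -, hφ, hφ0⟩ := exists_odd hs hss hl hodd (F := F ∩ t) (Z := Z ∪ (F ∩ t'))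
    (hF.inter ht) (hZ.union (hF.inter ht')) (by
      rw [Set.disjoint_left]
      rintro x ⟨hx, hxt⟩ (h | h)
      · exact Set.disjoint_left.1 hFZ hx h
      · exact hd x hx hxt h.2) (by
      intro x
      rw [hzero]
      constructor
      · rintro (h | h)
        · rcases hcov h with h' | h'
          · exact Or.inl ⟨h, h'⟩
          · exact Or.inr (Or.inr ⟨h, h'⟩)
        · exact Or.inr (Or.inl h)
      · rintro (h | h | h)
        · exact Or.inl h.1
        · exact Or.inr h
        · exact Or.inl h.1) (fun x hx => (hfix x).1 hx.1) (x₀ := x₀) ⟨hx₀, hx₀t⟩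
  have h1 : φ x₁ = 0 := by
    have := hφ x₁
    rw [(hfix x₁).1 hx₁] at this
    linarith
  exact hd x₁ hx₁ ((hφ0 x₁).1 h1).2 hx₁t

/-- a continuous function without zeros on a preconnected set has constant sign -/
lemma sign_const {F : Set X} (hF : IsPreconnected F) {φ : X → ℝ} (hφ : Continuous φ)
    (h0 : ∀ x ∈ F, φ x ≠ 0) : (∀ x ∈ F, 0 < φ x) ∨ (∀ x ∈ F, φ x < 0) := by
  by_contra hcon
  push Not at hcon
  obtain ⟨⟨a, ha, ha'⟩, ⟨b, hb, hb'⟩⟩ := hcon
  have h1 := hF.image φ hφ.continuousOn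
  have h2 : (0 : ℝ) ∈ φ '' F :=
    h1.ordConnected.out (mem_image_of_mem φ ha) (mem_image_of_mem φ hb) ⟨ha', hb'⟩
  obtain ⟨c, hc, hc0⟩ := h2
  exact h0 c hc hc0

/-- Ping-pong: if the fixed point sets of two reflections are disjoint, the product has infinite
order. -/
theorem pingpong [PathConnectedSpace X] {s t : X → X}
    {φ ψ : X → ℝ} (hφ : Continuous φ) (hψ : Continuous ψ)
    (hφs : ∀ x, φ (s x) = - φ x) (hψt : ∀ x, ψ (t x) = - ψ x)
    (hφ0 : ∀ x, φ x = 0 ↔ s x = x) (hψ0 : ∀ x, ψ x = 0 ↔ t x = x)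
    (hcs : IsPreconnected {x | s x = x}) (hct : IsPreconnected {x | t x = x})
    {a : X} (ha : s a = a) {b : X} (hb : t b = b)
    (hdis : ∀ x, s x = x → t x = x → False) (k : ℕ) (hk : 0 < k) :
    (t ∘ s)^[k] b ≠ b := by
  -- normalise signs
  obtain ⟨φ', hφ', hφs', hφ0', hφpos⟩ : ∃ φ' : X → ℝ, Continuous φ' ∧ (∀ x, φ' (s x) = - φ' x) ∧
      (∀ x, φ' x = 0 ↔ s x = x) ∧ ∀ x, t x = x → 0 < φ' x := by
    rcases sign_const hct hφ (fun x hx h => hdis x ((hφ0 x).1 h) hx) with h | h
    · exact ⟨φ, hφ, hφs, hφ0, h⟩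
    · refine ⟨fun x => - φ x, hφ.neg, fun x => by simp only [hφs], fun x => by
        rw [neg_eq_zero, hφ0],
        fun x hx => by have := h x hx; linarith⟩
  obtain ⟨ψ', hψ', hψt', hψ0', hψpos⟩ : ∃ ψ' : X → ℝ, Continuous ψ' ∧ (∀ x, ψ' (t x) = - ψ' x) ∧
      (∀ x, ψ' x = 0 ↔ t x = x) ∧ ∀ x, s x = x → 0 < ψ' x := by
    rcases sign_const hcs hψ (fun x hx h => hdis x hx ((hψ0 x).1 h)) with h | h
    · exact ⟨ψ, hψ, hψt, hψ0, h⟩
    · refine ⟨fun x => - ψ x, hψ.neg, fun x => by simp only [hψt], fun x => by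
        rw [neg_eq_zero, hψ0],
        fun x hx => by have := h x hx; linarith⟩
  -- no point is on the negative side of both
  have key : ∀ y, φ' y < 0 → 0 < ψ' y := by
    intro y hy
    by_contra hcon
    rw [not_lt] at hcon
    have hy2 : ψ' y < 0 := by
      rcases lt_or_eq_of_le hcon with h | h
      · exact h
      · have h1 := hφpos y ((hψ0' y).1 h)
        linarith
    obtain ⟨γ⟩ := PathConnectedSpace.joined y a
    -- first time at which `max φ' ψ' = 0`
    let m : unitInterval → ℝ := fun τ => max (φ' (γ τ)) (ψ' (γ τ))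
    have hm : Continuous m := (hφ'.comp γ.continuous).max (hψ'.comp γ.continuous)
    have hm0 : m 0 < 0 := by simp only [m, γ.source]; exact max_lt hy hy2
    have hm1 : 0 < m 1 := by
      simp only [m, γ.target]
      exact lt_max_of_lt_right (hψpos a ha)
    obtain ⟨τ, hτ⟩ : ∃ τ, m τ = 0 := by
      have h1 := isPreconnected_univ.image m hm.continuousOn
      have h2 : (0 : ℝ) ∈ m '' univ :=
        h1.ordConnected.out (mem_image_of_mem m (mem_univ 0)) (mem_image_of_mem m (mem_univ 1))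
          ⟨hm0.le, hm1.le⟩
      obtain ⟨τ, -, h⟩ := h2
      exact ⟨τ, h⟩
    rcases max_choice (φ' (γ τ)) (ψ' (γ τ)) with h | h
    · have h1 : φ' (γ τ) = 0 := by rw [← h]; exact hτ
      have h2 := hψpos _ ((hφ0' _).1 h1)
      have h3 : ψ' (γ τ) ≤ 0 := by rw [← hτ]; exact le_max_right _ _
      linarith
    · have h1 : ψ' (γ τ) = 0 := by rw [← h]; exact hτ
      have h2 := hφpos _ ((hψ0' _).1 h1)
      have h3 : φ' (γ τ) ≤ 0 := by rw [← hτ]; exact le_max_left _ _
      linarith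
  have key2 : ∀ y, ψ' y < 0 → 0 < φ' y := by
    intro y hy
    by_contra hcon
    rw [not_lt] at hcon
    rcases lt_or_eq_of_le hcon with h | h
    · have := key y h
      linarith
    · have := hψpos y ((hφ0' y).1 h)
      linarith
  have step : ∀ y, 0 < φ' y → ψ' (t (s y)) < 0 := by
    intro y hy
    have h1 : φ' (s y) < 0 := by rw [hφs']; linarith
    have h2 := key _ h1
    rw [hψt']; linarith
  have hall : ∀ k : ℕ, ψ' ((t ∘ s)^[k + 1] b) < 0 := by
    intro k
    induction k with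
    | zero => exact step b (hφpos b hb)
    | succ k ih =>
      rw [Function.iterate_succ_apply']
      exact step _ (key2 _ ih)
  intro heq
  obtain ⟨j, rfl⟩ : ∃ j, k = j + 1 := ⟨k - 1, by omega⟩
  have h1 := hall j
  rw [heq, (hψ0' b).2 hb] at h1
  exact lt_irrefl _ h1

end Pool.Agent.H76.Weyl
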