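import Mathlib
import Pool.Agent.H76.Weyl.Hol
import Pool.Agent.H76.Weyl.Sep

set_option autoImplicit false

open Filter Topology Set Matrix

namespace Pool.Agent.H76.Weyl

variable {q : ℕ}

/-- the vector with integral coordinates -/
def zr (α : Fin q → ℤ) : Fin q → ℝ := fun i => (α i : ℝ)

lemma mr_inv_mul (A : GL (Fin q) ℤ) : mr A⁻¹ * mr A = 1 := by
  rw [← mr_mul, inv_mul_cancel, mr_one]

lemma mr_mul_inv (A : GL (Fin q) ℤ) : mr A * mr A⁻¹ = 1 := by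
  rw [← mr_mul, mul_inv_cancel, mr_one]

/-- Integral factorization of an integral matrix of rank one. -/
lemma integral_rank_one {N : Matrix (Fin q) (Fin q) ℤ} {u c : Fin q → ℝ}
    (h : ∀ i j, (N i j : ℝ) = u i * c j) (hN : N ≠ 0) :
    ∃ α β : Fin q → ℤ, ∀ i j, N i j = α i * β j := by
  obtain ⟨i₀, j₀, h0⟩ : ∃ i₀ j₀, N i₀ j₀ ≠ 0 := by
    by_contra hcon
    push Not at hcon
    exact hN (by ext i j; exact hcon i j)
  have hu : u i₀ ≠ 0 := by
    intro hu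
    apply h0
    have := h i₀ j₀
    rw [hu, zero_mul] at this
    exact_mod_cast this
  let I : Ideal ℤ := Ideal.span (Set.range (N i₀))
  set g := Submodule.IsPrincipal.generator I with hg
  have hgI : g ∈ I := Submodule.IsPrincipal.generator_mem I
  have hdiv : ∀ j, ∃ r, N i₀ j = g * r := by
    intro j
    have h1 : N i₀ j ∈ I := Ideal.subset_span ⟨j, rfl⟩
    have h2 := (Submodule.IsPrincipal.mem_iff_generator_dvd I).1 h1
    exact h2
  choose β hβ using hdiv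
  have hg0 : g ≠ 0 := by
    intro h1
    apply h0
    rw [hβ j₀, h1, zero_mul]
  obtain ⟨x, hx⟩ := (Ideal.mem_span_range_iff_exists_fun).1 hgI
  have hsum : ∑ j, x j * β j = 1 := by
    have h1 : g * ∑ j, x j * β j = g * 1 := by
      rw [Finset.mul_sum, mul_one]
      conv_rhs => rw [← hx]
      refine Finset.sum_congr rfl fun j _ => ?_
      rw [hβ j]; ring
    exact mul_left_cancel₀ hg0 h1
  refine ⟨fun i => ∑ j, N i j * x j, β, fun i j => ?_⟩
  have hreal : (N i j : ℝ) = ((∑ k, N i k * x k : ℤ) : ℝ) * (β j : ℝ) := by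
    have h1 : ∀ k, (N i k : ℝ) = u i / u i₀ * (g * β k : ℝ) := by
      intro k
      have h2 : ((g * β k : ℤ) : ℝ) = u i₀ * c k := by rw [← hβ k, h]
      push_cast at h2
      rw [h2, h]
      field_simp
    push_cast
    rw [h1 j]
    have h3 : ∑ k, (N i k : ℝ) * (x k : ℝ) = u i / u i₀ * g := by
      have h4 : ∑ k, (N i k : ℝ) * (x k : ℝ) = ∑ k, u i / u i₀ * g * ((x k : ℝ) * (β k : ℝ)) := by
        refine Finset.sum_congr rfl fun k _ => ?_
        rw [h1 k]; ring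
      rw [h4, ← Finset.mul_sum]
      have h5 : ∑ k, (x k : ℝ) * (β k : ℝ) = 1 := by exact_mod_cast hsum
      rw [h5, mul_one]
    rw [h3]; ring
  exact_mod_cast hreal

/-- An involution of `ℝ^q` whose fixed vectors form a hyperplane. -/
lemma involution_form {A : Matrix (Fin q) (Fin q) ℝ} {c : Fin q → ℝ} (hc : c ≠ 0)
    (hA : A * A = 1) (hfix : ∀ w, A *ᵥ w = w ↔ c ⬝ᵥ w = 0) :
    ∃ u : Fin q → ℝ, (∀ w, A *ᵥ w = w - (c ⬝ᵥ w) • u) ∧ c ⬝ᵥ u = 2 := by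
  have hcc : c ⬝ᵥ c ≠ 0 := by
    intro h; exact hc (dotProduct_self_eq_zero.1 h)
  set w₀ : Fin q → ℝ := (c ⬝ᵥ c)⁻¹ • c with hw₀
  have hcw : c ⬝ᵥ w₀ = 1 := by
    rw [hw₀, dotProduct_smul, smul_eq_mul, inv_mul_cancel₀ hcc]
  set u : Fin q → ℝ := w₀ - A *ᵥ w₀ with hu
  have hform : ∀ w, A *ᵥ w = w - (c ⬝ᵥ w) • u := by
    intro w
    have h1 : A *ᵥ (w - (c ⬝ᵥ w) • w₀) = w - (c ⬝ᵥ w) • w₀ := by
      rw [hfix, dotProduct_sub, dotProduct_smul, hcw, smul_eq_mul, mul_one, sub_self]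
    rw [mulVec_sub, mulVec_smul] at h1
    rw [hu, smul_sub]
    have h2 : A *ᵥ w = w - (c ⬝ᵥ w) • w₀ + (c ⬝ᵥ w) • A *ᵥ w₀ := by
      rw [← h1]; abel
    rw [h2]; abel
  refine ⟨u, hform, ?_⟩
  have h2 : A *ᵥ (A *ᵥ w₀) = w₀ := by rw [mulVec_mulVec, hA, one_mulVec]
  rw [hform w₀, hcw, one_smul, mulVec_sub, hform w₀, hcw, one_smul, hform u] at h2
  have h3 : (2 - c ⬝ᵥ u) • u = 0 := by
    have : w₀ - u - (u - (c ⬝ᵥ u) • u) - w₀ = 0 := by rw [h2, sub_self]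
    have h4 : (2 - c ⬝ᵥ u) • u = -(w₀ - u - (u - (c ⬝ᵥ u) • u) - w₀) := by
      rw [sub_smul, two_smul]; abel
    rw [h4, this, neg_zero]
  rcases smul_eq_zero.1 h3 with h4 | h4
  · linarith
  · exfalso
    have h5 := (hfix w₀).1 (by rw [hform w₀, h4, smul_zero, sub_zero])
    rw [hcw] at h5
    exact one_ne_zero h5

variable {X : Type} [TopologicalSpace X] {S : IntegralAffine q X} {d : X → Fin q → ℝ}

/-- The form of a reflection in the developing map. -/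
theorem IntegralAffine.IsDev.refl_form [ConnectedSpace X] (hd : S.IsDev d) {g : X → X}
    (hg : Continuous g) (hr : S.IsReflection g) {A : GL (Fin q) ℤ} {b : Fin q → ℝ}
    (hA : ∀ x, d (g x) = aff A b (d x)) :
    A * A = 1 ∧ (∃ x₀, g x₀ = x₀) ∧ ∃ α β : Fin q → ℤ,
      (∀ w, (mr A) *ᵥ w = w - (zr β ⬝ᵥ w) • zr α) ∧ zr β ⬝ᵥ zr α = 2 := by
  obtain ⟨hgg, x₀, hx₀, e, he, hxe, c, hc, hev⟩ := hr
  have hAA : A * A = 1 := by
    have h1 : ∀ᶠ y in 𝓝 x₀, aff (A * A) ((mr A).mulVec b + b) (d y) =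
        aff (1 : GL (Fin q) ℤ) 0 (d y) := by
      refine Eventually.of_forall fun y => ?_
      rw [← aff_aff, ← hA, ← hA, hgg, aff_one]; rfl
    exact (hd.unique h1).1
  refine ⟨hAA, ⟨x₀, hx₀⟩, ?_⟩
  obtain ⟨⟨φ, A₂, b₂, rfl⟩, h₂⟩ := hd e he x₀ hxe
  -- near `x₀`, fixed points are detected by `d`
  obtain ⟨U, hU, hinj⟩ := hd.inj x₀
  have hgU : ∀ᶠ y in 𝓝 x₀, g y ∈ U := by
    have : Tendsto g (𝓝 x₀) (𝓝 x₀) := by
      have := hg.tendsto x₀
      rwa [hx₀] at this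
    exact this hU
  have hloc : ∀ᶠ y in 𝓝 x₀, (aff A b (d y) = d y ↔ c ⬝ᵥ (e y - e x₀) = 0) := by
    filter_upwards [hgU, hU, hev] with y h1 h2 h3
    have h4 : c ⬝ᵥ (e y - e x₀) = ∑ i, c i * (e y i - e x₀ i) := by
      simp [dotProduct]
    rw [h4, ← h3, ← hA]
    constructor
    · intro h; exact hinj h1 h2 h
    · intro h; rw [h]
  have hloc2 : ∀ᶠ y in 𝓝 x₀, ((mr A) *ᵥ ((mr A₂) *ᵥ (e y - e x₀)) = (mr A₂) *ᵥ (e y - e x₀) ↔
      c ⬝ᵥ (e y - e x₀) = 0) := by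
    filter_upwards [hloc, h₂] with y h1 h2
    rw [← h1]
    have h3 : d y - d x₀ = (mr A₂) *ᵥ (e y - e x₀) := by
      have h4 : d y = aff A₂ b₂ (e y) := h2
      have h5 : d x₀ = aff A₂ b₂ (e x₀) := h₂.self_of_nhds
      rw [h4, h5, aff_apply, aff_apply, mulVec_sub]; abel
    rw [← h3]
    have h6 : aff A b (d x₀) = d x₀ := by rw [← hA, hx₀]
    rw [aff_apply] at h6 ⊢
    rw [mulVec_sub]
    have hb : b = d x₀ - (mr A) *ᵥ d x₀ := eq_sub_of_add_eq' h6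
    rw [hb]
    clear hb h6
    generalize (mr A) *ᵥ d y = P₁
    generalize (mr A) *ᵥ d x₀ = P₀
    constructor
    · intro h
      have h7 : P₁ = d y - d x₀ + P₀ := by rw [← h]; abel
      rw [h7]; abel
    · intro h
      have h7 : P₁ = d y - (d x₀ - P₀) := eq_sub_of_add_eq h
      rw [h7]; abel
  have hloc3 : ∀ᶠ v in 𝓝 (e x₀), ((mr A) *ᵥ ((mr A₂) *ᵥ (v - e x₀)) = (mr A₂) *ᵥ (v - e x₀) ↔
      c ⬝ᵥ (v - e x₀) = 0) :=
    eventually_chart hxe (P := fun v => ((mr A) *ᵥ ((mr A₂) *ᵥ (v - e x₀)) =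
      (mr A₂) *ᵥ (v - e x₀) ↔ c ⬝ᵥ (v - e x₀) = 0)) hloc2
  have hall : ∀ v : Fin q → ℝ, ((mr A) *ᵥ ((mr A₂) *ᵥ v) = (mr A₂) *ᵥ v ↔ c ⬝ᵥ v = 0) := by
    intro v
    have h1 : Tendsto (fun t : ℝ => e x₀ + t • v) (𝓝 0) (𝓝 (e x₀)) := by
      have : Continuous fun t : ℝ => e x₀ + t • v := by fun_prop
      have h := this.tendsto 0
      simpa using h
    have h2 := h1.eventually hloc3
    have h3 : ∀ᶠ t in 𝓝[≠] (0 : ℝ), ((mr A) *ᵥ ((mr A₂) *ᵥ (e x₀ + t • v - e x₀)) =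
        (mr A₂) *ᵥ (e x₀ + t • v - e x₀) ↔ c ⬝ᵥ (e x₀ + t • v - e x₀) = 0) :=
      h2.filter_mono nhdsWithin_le_nhds
    obtain ⟨t, ht, ht0⟩ := (h3.and self_mem_nhdsWithin).exists
    have ht0' : t ≠ 0 := ht0
    rw [add_sub_cancel_left, mulVec_smul, mulVec_smul, dotProduct_smul, smul_eq_zero,
      smul_right_inj ht0'] at ht
    rw [ht]
    constructor
    · rintro (h | h)
      · exact absurd h ht0'
      · exact h
    · exact Or.inr
  set c' : Fin q → ℝ := c ᵥ* (mr A₂⁻¹) with hc'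
  have hfix : ∀ w, (mr A) *ᵥ w = w ↔ c' ⬝ᵥ w = 0 := by
    intro w
    have h1 := hall ((mr A₂⁻¹) *ᵥ w)
    rw [mulVec_mulVec w (mr A₂) (mr A₂⁻¹), mr_mul_inv, one_mulVec] at h1
    rw [h1, hc', ← dotProduct_mulVec]
  have hc'0 : c' ≠ 0 := by
    intro h
    apply hc
    have h1 : c' ᵥ* (mr A₂) = c := by
      rw [hc', vecMul_vecMul, mr_inv_mul, vecMul_one]
    rw [← h1, h, zero_vecMul]
  have hAA' : mr A * mr A = 1 := by rw [← mr_mul, hAA, mr_one]
  obtain ⟨u, hu, hcu⟩ := involution_form hc'0 hAA' hfix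
  -- entries
  have hent : ∀ i j, (((1 - A.1) i j : ℤ) : ℝ) = u i * c' j := by
    intro i j
    have h1 := congrFun (hu (Pi.single j 1)) i
    rw [mulVec_single_one, dotProduct_single_one] at h1
    simp only [Pi.sub_apply, Pi.smul_apply, smul_eq_mul, col_apply] at h1
    have h2 : mr A i j = (A.1 i j : ℝ) := rfl
    rw [h2] at h1
    rw [Matrix.sub_apply]
    push_cast
    rw [h1]
    have h3 : ((1 : Matrix (Fin q) (Fin q) ℤ) i j : ℝ) = (Pi.single j (1 : ℝ) : Fin q → ℝ) i := by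
      rw [Matrix.one_apply, Pi.single_apply]
      split_ifs <;> simp
    rw [h3]; ring
  have hN : (1 - A.1) ≠ 0 := by
    intro h
    have h1 : A.1 = 1 := (sub_eq_zero.1 h).symm
    have h2 : mr A = 1 := by rw [mr, h1]; simp
    apply hc'0
    apply dotProduct_self_eq_zero.1
    apply (hfix c').1
    rw [h2, one_mulVec]
  obtain ⟨α, β, hαβ⟩ := integral_rank_one hent hN
  have hform : ∀ w, (mr A) *ᵥ w = w - (zr β ⬝ᵥ w) • zr α := by
    intro w
    ext i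
    have h1 : ∀ j, mr A i j = (1 : Matrix (Fin q) (Fin q) ℝ) i j - (α i : ℝ) * (β j : ℝ) := by
      intro j
      have h2 := hαβ i j
      rw [Matrix.sub_apply] at h2
      have h3 : (A.1 i j) = (1 : Matrix (Fin q) (Fin q) ℤ) i j - α i * β j := by rw [← h2]; ring
      change ((A.1 i j : ℤ) : ℝ) = _
      rw [h3]
      push_cast
      congr 1
      rw [Matrix.one_apply, Matrix.one_apply]
      split_ifs <;> simp
    have h4 : ((mr A) *ᵥ w) i = ∑ j, mr A i j * w j := rfl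
    rw [h4]
    simp only [h1, sub_mul, Finset.sum_sub_distrib]
    have h5 : ∑ j, (1 : Matrix (Fin q) (Fin q) ℝ) i j * w j = w i := by
      have := congrFun (one_mulVec w) i
      exact this
    rw [h5]
    simp only [Pi.sub_apply, Pi.smul_apply, smul_eq_mul, zr, dotProduct, Finset.sum_mul]
    congr 1
    refine Finset.sum_congr rfl fun j _ => ?_
    ring
  refine ⟨α, β, hform, ?_⟩
  -- the value `2`
  have hα : zr α ≠ 0 := by
    intro h
    apply hN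
    ext i j
    rw [hαβ i j]
    have h1 : (α i : ℝ) = 0 := congrFun h i
    have h2 : α i = 0 := by exact_mod_cast h1
    rw [h2]; simp
  obtain ⟨w, hw⟩ : ∃ w, zr β ⬝ᵥ w ≠ 0 := by
    by_contra hcon
    push Not at hcon
    apply hc'0
    apply dotProduct_self_eq_zero.1
    apply (hfix c').1
    rw [hform, hcon, zero_smul, sub_zero]
  have h1 : (mr A) *ᵥ ((mr A) *ᵥ w) = w := by rw [mulVec_mulVec, hAA', one_mulVec]
  rw [hform w, mulVec_sub, mulVec_smul, hform w, hform (zr α)] at h1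
  have h2 : ((zr β ⬝ᵥ w) * (2 - zr β ⬝ᵥ zr α)) • zr α = 0 := by
    have h3 : ((zr β ⬝ᵥ w) * (2 - zr β ⬝ᵥ zr α)) • zr α =
        w - (w - (zr β ⬝ᵥ w) • zr α - (zr β ⬝ᵥ w) • (zr α - (zr β ⬝ᵥ zr α) • zr α)) := by
      module
    rw [h3, h1, sub_self]
  rcases smul_eq_zero.1 h2 with h3 | h3
  · rcases mul_eq_zero.1 h3 with h4 | h4
    · exact absurd h4 hw
    · linarith
  · exact absurd h3 hα

end Pool.Agent.H76.Weyl
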