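import Mathlib
import Pool.Agent.H76.Weyl.Refl

set_option autoImplicit false

open Filter Topology Set Matrix

namespace Pool.Agent.H76.Weyl

variable {q : ℕ}
variable {X : Type} [TopologicalSpace X] {S : IntegralAffine q X} {d : X → Fin q → ℝ}

/-- The fixed point set of a reflection is connected and has two sides. -/
theorem IntegralAffine.IsDev.exists_side [SimplyConnectedSpace X] [T2Space X] [NormalSpace X]
    (hd : S.IsDev d) {g : X → X}
    (hg : Continuous g) (hr : S.IsReflection g) {A : GL (Fin q) ℤ} {b : Fin q → ℝ}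
    (hA : ∀ x, d (g x) = aff A b (d x)) :
    (∃ φ : X → ℝ, Continuous φ ∧ (∀ x, φ (g x) = - φ x) ∧ ∀ x, φ x = 0 ↔ g x = x) ∧
      IsPreconnected {x | g x = x} := by
  have := S.locPath
  obtain ⟨-, ⟨x₀, hx₀⟩, α, β, hform, h2⟩ := hd.refl_form hg hr hA
  have hgg := hr.1
  set l : X → ℝ := fun y => zr β ⬝ᵥ (d y - d x₀) with hl
  have hlc : Continuous l := by
    have h1 := hd.continuous
    simp only [hl, dotProduct]
    fun_prop
  have hdiff : ∀ y, d (g y) - d x₀ = (mr A) *ᵥ (d y - d x₀) := by
    intro y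
    have h3 : aff A b (d x₀) = d x₀ := by rw [← hA, hx₀]
    have h4 : d (g y) = aff A b (d y) := hA y
    rw [aff_apply] at h3 h4
    rw [h4, mulVec_sub]
    have hb : b = d x₀ - (mr A) *ᵥ d x₀ := eq_sub_of_add_eq' h3
    rw [hb]; abel
  have hodd : ∀ y, l (g y) = - l y := by
    intro y
    simp only [hl]
    rw [hdiff, hform, dotProduct_sub, dotProduct_smul, h2, smul_eq_mul]
    ring
  have hdg : ∀ y, d (g y) = d y - (l y) • zr α := by
    intro y
    have h3 := hdiff y
    rw [hform] at h3
    have h4 : d (g y) = d x₀ + (d (g y) - d x₀) := by abel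
    rw [h4, h3]
    abel
  set F : Set X := {x | g x = x} with hF
  have hFc : IsClosed F := isClosed_eq hg continuous_id
  have hF0 : ∀ y ∈ F, l y = 0 := by
    intro y hy
    have h3 := hodd y
    have h4 : g y = y := hy
    rw [h4] at h3
    linarith
  have hloc : ∀ y ∈ F, ∀ᶠ z in 𝓝 y, l z = 0 → g z = z := by
    intro y hy
    have hy' : g y = y := hy
    obtain ⟨U, hU, hinj⟩ := hd.inj y
    have hgU : ∀ᶠ z in 𝓝 y, g z ∈ U := by
      have : Tendsto g (𝓝 y) (𝓝 y) := by
        have := hg.tendsto y
        rwa [hy'] at this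
      exact this hU
    filter_upwards [hgU, hU] with z h3 h4 h5
    refine hinj h3 h4 ?_
    rw [hdg z, h5, zero_smul, sub_zero]
  set Z : Set X := {x | l x = 0 ∧ g x ≠ x} with hZ
  have hZc : IsClosed Z := by
    have h3 : Zᶜ = {x | l x ≠ 0} ∪ {y | ∀ᶠ z in 𝓝 y, l z = 0 → g z = z} := by
      ext y
      constructor
      · intro hy
        by_cases h4 : l y = 0
        · right
          apply hloc
          by_contra h5
          exact hy ⟨h4, h5⟩
        · left; exact h4
      · rintro (h4 | h4) ⟨h5, h6⟩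
        · exact h4 h5
        · exact h6 (h4.self_of_nhds h5)
    rw [← isOpen_compl_iff, h3]
    exact (isOpen_ne_fun hlc continuous_const).union isOpen_setOfPred_eventually_nhds
  have hFZ : Disjoint F Z := by
    rw [Set.disjoint_left]
    intro y hy hy'
    exact hy'.2 hy
  have hzero : ∀ x, l x = 0 ↔ x ∈ F ∪ Z := by
    intro x
    constructor
    · intro h3
      by_cases h4 : g x = x
      · exact Or.inl h4
      · exact Or.inr ⟨h3, h4⟩
    · rintro (h3 | h3)
      · exact hF0 x h3
      · exact h3.1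
  refine ⟨?_, fix_preconnected hg hgg hlc hodd hFc hZc hFZ hzero fun x => Iff.rfl⟩
  exact exists_odd hg hgg hlc hodd hFc hZc hFZ hzero (fun x hx => hx) (x₀ := x₀) hx₀

end Pool.Agent.H76.Weyl
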