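import Mathlib
import Pool.Graph.R_seed8.Helper741.GeomRep
import Pool.Agent.H76.Weyl.Side
import Pool.Agent.H76.Weyl.Lin

set_option autoImplicit false

open Filter Topology Set Matrix

namespace Pool.Agent.H76.Weyl

open Pool.Agent.Helper741

section order

variable {ι : Type} [Fintype ι] [DecidableEq ι] {M : CoxeterMatrix ι} {W : Type} [Group W]
  (cs : CoxeterSystem M W)

lemma pow_ne_one {i j : ι} (hij : i ≠ j) {k : ℕ} (hk : 0 < k) (hkm : M i j = 0 ∨ k < M i j) :
    (cs.simple i * cs.simple j) ^ k ≠ 1 := by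
  intro h
  have h1 : (sg M i * sg M j) ^ k = 1 := by
    have := congrArg (geo cs) h
    rwa [map_pow, map_mul, geo_simple, geo_simple, map_one] at this
  have h2 := prod_alt_ee M i j (2 * k)
  rw [prod_alt_eq_pow, h1, Module.End.one_apply, if_pos (even_two_mul k)] at h2
  have h3 : qs (cc M i j) (2 * k) = 0 := by
    have := congrFun h2 j
    simp only [Pi.add_apply, Pi.smul_apply, Pi.single_eq_same,
      Pi.single_eq_of_ne hij.symm, smul_eq_mul, mul_zero, mul_one, zero_add] at this
    exact this.symm
  have h4 : qs (cc M i j) (2 * k + 1) = 1 := by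
    have := congrFun h2 i
    simp only [Pi.add_apply, Pi.smul_apply, Pi.single_eq_same,
      Pi.single_eq_of_ne hij, smul_eq_mul, mul_zero, mul_one, add_zero] at this
    exact this.symm
  by_cases h0 : M i j = 0
  · rw [cc_of_zero M h0, qs_of_one] at h3
    have : (2 * k : ℕ) = 0 := by exact_mod_cast h3
    omega
  · have hlt := hkm.resolve_left h0
    have hs := sin_pos_of_ne M hij h0
    have e1 := qs_sin (Real.pi / (M i j : ℝ)) (2 * k)
    have e2 := qs_sin (Real.pi / (M i j : ℝ)) (2 * k + 1)
    have hm : (0 : ℝ) < (M i j : ℝ) := by exact_mod_cast Nat.pos_of_ne_zero h0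
    rw [show Real.cos (Real.pi / (M i j : ℝ)) = cc M i j from rfl] at e1 e2
    rw [h3, zero_mul] at e1
    rw [h4, one_mul] at e2
    -- the angle is `π`
    have h5 : ((2 * k : ℕ) : ℝ) * (Real.pi / (M i j : ℝ)) = Real.pi := by
      have h6 : 0 < ((2 * k : ℕ) : ℝ) * (Real.pi / (M i j : ℝ)) := by positivity
      have h7 : ((2 * k : ℕ) : ℝ) * (Real.pi / (M i j : ℝ)) < 2 * Real.pi := by
        have h8 : (k : ℝ) < (M i j : ℝ) := by exact_mod_cast hlt
        rw [mul_div_assoc', div_lt_iff₀ hm]
        push_cast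
        nlinarith [Real.pi_pos]
      obtain ⟨n, hn⟩ := Real.sin_eq_zero_iff.1 e1.symm
      rw [← hn] at h6 h7 ⊢
      have h9 : (0 : ℝ) < n := by
        by_contra hcon
        rw [not_lt] at hcon
        nlinarith [Real.pi_pos]
      have h10 : (n : ℝ) < 2 := by
        by_contra hcon
        rw [not_lt] at hcon
        nlinarith [Real.pi_pos]
      have h11 : n = 1 := by
        have a1 : 0 < n := by exact_mod_cast h9
        have a2 : n < 2 := by exact_mod_cast h10
        omega
      rw [h11]; simp
    have h6 : ((2 * k + 1 : ℕ) : ℝ) * (Real.pi / (M i j : ℝ)) =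
        Real.pi / (M i j : ℝ) + Real.pi := by
      push_cast at h5 ⊢
      linarith
    rw [h6, Real.sin_add_pi] at e2
    linarith

/-- The order of the product of two simple reflections of a finite Coxeter group. -/
lemma order_simple [Finite W] {i j : ι} (hij : i ≠ j) :
    M i j ≠ 0 ∧ orderOf (cs.simple i * cs.simple j) = M i j := by
  set g := cs.simple i * cs.simple j with hg
  have hpos : 0 < orderOf g := orderOf_pos g
  have h0 : M i j ≠ 0 := by
    intro h0
    exact pow_ne_one cs hij hpos (Or.inl h0) (pow_orderOf_eq_one g)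
  refine ⟨h0, ?_⟩
  have h1 : orderOf g ∣ M i j := orderOf_dvd_of_pow_eq_one (cs.simple_mul_simple_pow i j)
  have h2 := Nat.le_of_dvd (Nat.pos_of_ne_zero h0) h1
  rcases lt_or_eq_of_le h2 with h3 | h3
  · exact absurd (pow_orderOf_eq_one g) (pow_ne_one cs hij hpos (Or.inr h3))
  · exact h3

include cs in
/-- Positive definiteness of the cosine matrix of a finite Coxeter group, in a form adapted to
symmetrizable matrices. -/
lemma posdef_of_finite [Finite W] {x : ι → ℝ} (hx : ∀ i, 0 < x i) {P : ι → ι → ℝ}
    (hP : ∀ i j, i ≠ j → P i j = -(2 * cc M i j * (√(x i) * √(x j)))) (hPd : ∀ i, P i i = 2 * x i)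
    {v : ι → ℝ} (hv : v ≠ 0) : 0 < ∑ i, ∑ j, P i j * (v i * v j) := by
  obtain ⟨B, hsym, hpos, hinv⟩ := exists_inner (geo cs)
  set n : ι → ℝ := fun i => B (ee i) (ee i) with hn
  have hee : ∀ i : ι, (ee i : ι → ℝ) ≠ 0 := fun i h => by
    have := congrFun h i
    simp at this
  have hn0 : ∀ i, 0 < n i := fun i => hpos _ (hee i)
  have hrel : ∀ i j, B (ee j) (ee i) = - cc M i j * n i := by
    intro i j
    have h1 := refl_rel B (s := geo cs (cs.simple i)) (hinv _) (β := coroot M i) (α := ee i)
      (fun v => by rw [geo_simple, sg_apply]) (by rw [coroot_ee, cc_self]; norm_num) (ee j)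
    rw [coroot_ee] at h1
    simp only [hn]
    linarith
  have hcc : ∀ i j, i ≠ j → B (ee i) (ee j) = -(cc M i j * (√(n i) * √(n j))) := by
    intro i j hij
    have h1 := hrel i j
    have h2 := hrel j i
    rw [hsym] at h2
    rw [cc_symm M j i] at h2
    rw [hsym]
    by_cases hc : cc M i j = 0
    · rw [h1, hc]; simp
    · have h3 : n i = n j := by
        have : - cc M i j * n i = - cc M i j * n j := by rw [← h1, ← h2]
        exact mul_left_cancel₀ (neg_ne_zero.2 hc) this
      rw [h1, ← h3, Real.mul_self_sqrt (hn0 i).le]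
      ring
  set lam : ι → ℝ := fun i => √(x i) / √(n i) with hlam
  have hsn : ∀ i, 0 < √(n i) := fun i => Real.sqrt_pos.2 (hn0 i)
  have hlam0 : ∀ i, 0 < lam i := fun i => div_pos (Real.sqrt_pos.2 (hx i)) (hsn i)
  have hPB : ∀ i j, P i j = 2 * (lam i * lam j * B (ee i) (ee j)) := by
    intro i j
    by_cases hij : i = j
    · subst hij
      rw [hPd]
      change 2 * x i = 2 * (lam i * lam i * n i)
      simp only [hlam]
      have h3 := (hsn i).ne'
      field_simp
      rw [Real.sq_sqrt (hx i).le, Real.sq_sqrt (hn0 i).le]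
    · rw [hP i j hij, hcc i j hij]
      simp only [hlam]
      have h3 := (hsn i).ne'
      have h4 := (hsn j).ne'
      field_simp
  set u : ι → ℝ := fun i => lam i * v i with hu
  have hu0 : u ≠ 0 := by
    intro h
    apply hv
    ext i
    have := congrFun h i
    simp only [hu, Pi.zero_apply, mul_eq_zero] at this
    exact this.resolve_left (hlam0 i).ne'
  have hexp : B u u = ∑ i, ∑ j, u i * (u j * B (ee i) (ee j)) := by
    have h1 : u = ∑ i, u i • (ee i : ι → ℝ) := by
      ext k
      simp [Finset.sum_apply, Pi.single_apply]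
    conv_lhs => rw [h1]
    simp only [map_sum, LinearMap.sum_apply, map_smul, LinearMap.smul_apply, smul_eq_mul]
    rw [Finset.sum_comm]
    refine Finset.sum_congr rfl fun i _ => ?_
    rw [Finset.mul_sum]
    refine Finset.sum_congr rfl fun j _ => ?_
    ring
  have hfin : ∑ i, ∑ j, P i j * (v i * v j) = 2 * B u u := by
    rw [hexp, Finset.mul_sum]
    refine Finset.sum_congr rfl fun i _ => ?_
    rw [Finset.mul_sum]
    refine Finset.sum_congr rfl fun j _ => ?_
    rw [hPB i j]
    simp only [hu]
    ring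
  rw [hfin]
  have := hpos u hu0
  linarith

end order

end Pool.Agent.H76.Weyl
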